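import Mathlib
import Pool.Agent.X106.DP.Outer

set_option autoImplicit false

/-!
# MP_57350d_an: every outer function in `D^p_{p-1}`, `p > 2`, is cyclic

For `p > 2` the space `D^p_{p-1}` consists of the holomorphic `f` on the unit disc with
`‖f‖ = |f(0)| + (∫ (1-|z|)^(p-1) |f'(z)|^p dA(z))^(1/p) < ∞`.  We prove that every outer function of
`D^p_{p-1}` is cyclic, which answers Q1 affirmatively, for all `p > 2`.

Sketch.  Let `f` be outer in `D^p_{p-1}`.

* (`energy_p`) If `h` is holomorphic and `|h| ≤ 1`, then `‖h - 1‖` is small when `h(0)` is close to `1`.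
* (`outer_mult`) There are bounded outer `φ_j` with `|φ_j f| ≤ 1` and `φ_j(0) f(0) → 1`.
* (`main_lemma`) If `φ` is a bounded holomorphic function and `f ∈ D^p_{p-1}`, then, with
  `φ_s(z) = φ(sz)` and `f_s(z) = f(sz)`, we have `φ_s (f - f_s) → 0` in `D^p_{p-1}` as `s → 1`
  (although `φ` need not be a multiplier of the space).  Hence, if moreover `φ f` belongs to the space,
  `φ_s f = (φ f)_s + φ_s (f - f_s) → φ f`, so `φ f` lies in the invariant subspace generated by `f`.
* (`exists_poly`) Apply this to `φ = φ_j`, for which `φ_j f` is bounded by `1`, and replace the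
  dilates by their Taylor polynomials.
-/

namespace Pool.Agent.Results.MP_57350d_an.OuterCyclic

open MeasureTheory Filter Topology Complex
open scoped ENNReal

/-- The norm `‖f‖ = |f(0)| + (∫_𝔻 (1-|z|)^(p-1) |f'(z)|^p dA(z))^(1/p)` of `D^p_{p-1}`,
with values in `[0, ∞]`. -/
noncomputable def normD (p : ℝ) (f : ℂ → ℂ) : ℝ≥0∞ :=
  ‖f 0‖ₑ + (∫⁻ z in Metric.ball (0 : ℂ) 1,
    ENNReal.ofReal ((1 - ‖z‖) ^ (p - 1)) * ‖deriv f z‖ₑ ^ p) ^ (1 / p)

/-- `f ∈ D^p_{p-1}`: `f` is holomorphic on the open unit disc, with finite norm. -/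
def MemD (p : ℝ) (f : ℂ → ℂ) : Prop :=
  DifferentiableOn ℂ f (Metric.ball (0 : ℂ) 1) ∧ normD p f < ∞

/-- `f` is cyclic in `D^p_{p-1}`: there are polynomials `q_n` with `‖q_n f - 1‖ → 0`. -/
def IsCyclic (p : ℝ) (f : ℂ → ℂ) : Prop :=
  MemD p f ∧ ∃ q : ℕ → Polynomial ℂ,
    Tendsto (fun n => normD p (fun z => (q n).eval z * f z - 1)) atTop (𝓝 0)

/-- `f` is outer: on the disc, `f` is a unimodular constant times the exponential of the Herglotz
integral of `log k`, with `k ≥ 0` measurable on the circle and `log k` integrable.  (As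
`Real.log 0 = 0`, a zero of `k` counts as a point with `k = 1`; this does not change the class of
functions `f`.) -/
def IsOuter (f : ℂ → ℂ) : Prop :=
  ∃ (c : ℂ) (k : Circle → ℝ), ‖c‖ = 1 ∧ Measurable[borel Circle] k ∧ (∀ ζ, 0 ≤ k ζ) ∧
    IntervalIntegrable (fun θ : ℝ => Real.log (k (Circle.exp θ))) volume 0 (2 * Real.pi) ∧
    ∀ z ∈ Metric.ball (0 : ℂ) 1, f z = c * Complex.exp (1 / (2 * Real.pi) *
      ∫ θ in (0 : ℝ)..2 * Real.pi, (Complex.exp (θ * I) + z) / (Complex.exp (θ * I) - z) *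
        (Real.log (k (Circle.exp θ)) : ℂ))

/-- **Every outer function in `D^p_{p-1}`, `p > 2`, is cyclic in `D^p_{p-1}`.** -/
theorem result (p : ℝ) (hp : 2 < p) (f : ℂ → ℂ) (hf : MemD p f) (ho : IsOuter f) :
    IsCyclic p f := by
  refine ⟨hf, ?_⟩
  obtain ⟨hd, hfin⟩ := hf
  obtain ⟨c, k, hc, -, -, hint, hform⟩ := ho
  -- finiteness of the energy integral
  have hfin' : ∫⁻ z in Metric.ball (0 : ℂ) 1, Pool.Agent.X106.DP.wt p z * ‖deriv f z‖ₑ ^ p ≠ ⊤ := by
    intro htop
    have h1 : normD p f = ⊤ := by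
      unfold normD
      have h2 : (∫⁻ z in Metric.ball (0 : ℂ) 1,
          ENNReal.ofReal ((1 - ‖z‖) ^ (p - 1)) * ‖deriv f z‖ₑ ^ p) = ⊤ := htop
      rw [h2, ENNReal.top_rpow_of_pos (by positivity)]
      simp
    rw [h1] at hfin
    exact lt_irrefl _ hfin
  -- `log k` as a function on `ℂ`
  set w : ℂ → ℝ := Function.extend (fun ζ : Circle => (ζ : ℂ)) (fun ζ => Real.log (k ζ)) 0 with hw
  have hwc : ∀ θ : ℝ, w (circleMap 0 1 θ) = Real.log (k (Circle.exp θ)) := by
    intro θ
    have e : circleMap 0 1 θ = ((Circle.exp θ : Circle) : ℂ) := by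
      simp [circleMap, Circle.coe_exp]
    rw [e, hw]
    exact (Subtype.val_injective).extend_apply (fun ζ : Circle => Real.log (k ζ)) 0 (Circle.exp θ)
  have hwi : CircleIntegrable w 0 1 := by
    unfold CircleIntegrable
    simp only [hwc]
    exact hint
  have hf' : ∀ z ∈ Metric.ball (0 : ℂ) 1,
      f z = c * Complex.exp (Pool.Agent.X106.DP.HR w z) := by
    intro z hz
    rw [hform z hz]
    congr 2
    unfold Pool.Agent.X106.DP.HR Real.circleAverage
    rw [Complex.real_smul]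
    simp only [hwc, herglotzRieszKernel_def, sub_zero, smul_eq_mul]
    congr 1
    · push_cast
      rw [one_div]
    · congr 1
      funext θ
      have e : circleMap 0 1 θ = Complex.exp (θ * I) := by
        simp [circleMap]
      rw [e]
  have key : ∀ n : ℕ, ∃ q : Polynomial ℂ,
      normD p (fun z => q.eval z * f z - 1) ≤ ((n : ℝ≥0∞) + 1)⁻¹ := by
    intro n
    exact Pool.Agent.X106.DP.exists_poly hp hd hfin'
      (Pool.Agent.X106.DP.outer_mult hwi hc hf')
      (ENNReal.inv_pos.2 (ENNReal.add_ne_top.2 ⟨ENNReal.natCast_ne_top n, ENNReal.one_ne_top⟩))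
  choose q hq using key
  refine ⟨q, ?_⟩
  have ht : Tendsto (fun n : ℕ => ((n : ℝ≥0∞) + 1)⁻¹) atTop (𝓝 0) := by
    have h1 := (tendsto_add_atTop_iff_nat 1).2 ENNReal.tendsto_inv_nat_nhds_zero
    refine h1.congr fun n => ?_
    push_cast
    rfl
  exact tendsto_of_tendsto_of_tendsto_of_le_of_le tendsto_const_nhds ht (fun _ => zero_le) hq

end Pool.Agent.Results.MP_57350d_an.OuterCyclic
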